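import Pool.Agent.H26.QQ.Targets

/-!
PCK: a subset with a product of prescribed size (board qq_modules, MP_7ecdd4_nt).
-/

set_option autoImplicit false

namespace Pool.Agent.H11.QQ

open Pool.Agent.H26.QQ

theorem pf_PCK : T_PCK := by
  intro A G D hA hG hD
  induction D using Finset.induction_on with
  | empty =>
    intro h
    rw [Finset.prod_empty] at h
    refine ⟨∅, Finset.Subset.refl _, ?_, ?_⟩
    · rw [Finset.prod_empty]
      exact h
    · rw [Finset.prod_empty]
      have : 1 * 1 ≤ A * G := mul_le_mul hA hG zero_le_one (by linarith)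
      linarith
  | insert a s ha ih =>
    intro h
    by_cases hs : A ≤ ∏ l ∈ s, (l : ℝ)
    · obtain ⟨D', h1, h2, h3⟩ := ih (fun l hl => hD l (Finset.mem_insert_of_mem hl)) hs
      exact ⟨D', h1.trans (Finset.subset_insert _ _), h2, h3⟩
    · rw [not_le] at hs
      refine ⟨insert a s, Finset.Subset.refl _, h, ?_⟩
      rw [Finset.prod_insert ha]
      obtain ⟨h1, h2⟩ := hD a (Finset.mem_insert_self _ _)
      have h3 : (a : ℝ) * ∏ l ∈ s, (l : ℝ) ≤ G * A :=
        mul_le_mul h2 hs.le (Finset.prod_nonneg fun l _ => Nat.cast_nonneg l) (by linarith)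
      linarith [mul_comm A G]

end Pool.Agent.H11.QQ
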